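import Pool.Agent.Helper62.BM.Stm

/-!
# The Hasse-Witt functionals: horizontality, degrees, isotropy
-/

set_option autoImplicit false

open Polynomial Matrix Finset

namespace Pool.Agent.Helper18.BM

open Pool.Agent.Helper62.BM

/-! ## Degrees -/

/-- All coefficients of `P` have degree `≤ d`. -/
def CDeg {R : Type} [CommRing R] (P : R[X][X]) (d : ℕ) : Prop := ∀ k, (P.coeff k).natDegree ≤ d

lemma CDeg.mul {R : Type} [CommRing R] {P Q : R[X][X]} {d e : ℕ} (hP : CDeg P d) (hQ : CDeg Q e) :
    CDeg (P * Q) (d + e) := by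
  intro k
  rw [coeff_mul]
  refine natDegree_sum_le_of_forall_le _ _ fun s _ => ?_
  exact natDegree_mul_le_of_le (hP _) (hQ _)

lemma CDeg.one {R : Type} [CommRing R] : CDeg (1 : R[X][X]) 0 := by
  intro k
  rw [coeff_one]
  split_ifs <;> simp

lemma CDeg.pow {R : Type} [CommRing R] {P : R[X][X]} {d : ℕ} (hP : CDeg P d) (m : ℕ) :
    CDeg (P ^ m) (m * d) := by
  induction m with
  | zero => simpa using (CDeg.one (R := R))
  | succ m ih =>
    rw [pow_succ]
    have := ih.mul hP
    rwa [← Nat.succ_mul] at this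

lemma CDeg.sub {R : Type} [CommRing R] {P Q : R[X][X]} {d : ℕ} (hP : CDeg P d) (hQ : CDeg Q d) :
    CDeg (P - Q) d := by
  intro k
  rw [coeff_sub]
  exact natDegree_sub_le_of_le (hP k) (hQ k) |>.trans (by simp)

lemma cdeg_X {R : Type} [CommRing R] (d : ℕ) : CDeg (X : R[X][X]) d := by
  intro k
  rw [coeff_X]
  split_ifs <;> simp

lemma cdeg_CC {R : Type} [CommRing R] (c : R) (d : ℕ) : CDeg (C (C c) : R[X][X]) d := by
  intro k
  rw [coeff_C]
  split_ifs <;> simp

lemma cdeg_CX {R : Type} [CommRing R] : CDeg (C (X : R[X]) : R[X][X]) 1 := by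
  intro k
  rw [coeff_C]
  split_ifs
  · exact natDegree_X_le
  · simp

lemma CDeg.prod {R : Type} [CommRing R] {ι : Type} (s : Finset ι) (f : ι → R[X][X])
    (h : ∀ i ∈ s, CDeg (f i) 0) : CDeg (∏ i ∈ s, f i) 0 := by
  classical
  induction s using Finset.induction_on with
  | empty => simpa using (CDeg.one (R := R))
  | insert i s hi ih =>
    rw [Finset.prod_insert hi]
    have := (h i (mem_insert_self _ _)).mul (ih fun j hj => h j (mem_insert_of_mem hj))
    simpa using this

lemma cdeg_fmx {R : Type} [CommRing R] {n : ℕ} (a : Fin n → R) : CDeg (fmx a) 1 := by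
  unfold fmx
  have h1 : CDeg (∏ j, (X - Polynomial.C (Polynomial.C (a j)))) 0 :=
    CDeg.prod _ _ fun i _ => (cdeg_X 0).sub (cdeg_CC _ 0)
  have h2 : CDeg (X - Polynomial.C (X : R[X])) 1 := (cdeg_X 1).sub cdeg_CX
  simpa using h2.mul h1

theorem hwdeg : S_HWdeg := by
  intro C _ p g n a i l
  have h1 : CDeg (X ^ (l : ℕ) * fmx a ^ ((p - 1) / 2)) ((p - 1) / 2) := by
    have := ((cdeg_X (R := C) 0).pow (l : ℕ)).mul ((cdeg_fmx a).pow ((p - 1) / 2))
    simpa using this
  exact h1 _

/-! ## Derivation on the coefficients -/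

/-- The derivation on the coefficients. -/
noncomputable def dc {R : Type} [CommRing R] (P : R[X][X]) : R[X][X] :=
  P.sum fun n c => monomial n (derivative c)

lemma dc_coeff {R : Type} [CommRing R] (P : R[X][X]) (k : ℕ) :
    (dc P).coeff k = derivative (P.coeff k) := by
  unfold dc
  rw [Polynomial.sum_def, finsetSum_coeff]
  simp only [coeff_monomial]
  rw [Finset.sum_ite_eq']
  split_ifs with h
  · rfl
  · rw [notMem_support_iff.mp h, derivative_zero]

lemma dc_mul {R : Type} [CommRing R] (P Q : R[X][X]) : dc (P * Q) = dc P * Q + P * dc Q := by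
  ext1 k
  rw [dc_coeff, coeff_add, coeff_mul, coeff_mul, coeff_mul, derivative_sum, ← Finset.sum_add_distrib]
  refine Finset.sum_congr rfl fun s _ => ?_
  rw [derivative_mul, dc_coeff, dc_coeff]

lemma dc_sub {R : Type} [CommRing R] (P Q : R[X][X]) : dc (P - Q) = dc P - dc Q := by
  ext1 k
  rw [dc_coeff, coeff_sub, coeff_sub, derivative_sub, dc_coeff, dc_coeff]

lemma dc_map {R : Type} [CommRing R] (P : R[X]) : dc (P.map C) = 0 := by
  ext1 k
  rw [dc_coeff, coeff_map, derivative_C, coeff_zero]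

lemma dc_C {R : Type} [CommRing R] (c : R[X]) : dc (C c) = C (derivative c) := by
  ext1 k
  rw [dc_coeff, coeff_C, coeff_C]
  split_ifs <;> simp

lemma dc_X {R : Type} [CommRing R] : dc (X : R[X][X]) = 0 := by
  have := dc_map (X : R[X])
  rwa [Polynomial.map_X] at this

lemma dc_one {R : Type} [CommRing R] : dc (1 : R[X][X]) = 0 := by
  have := dc_map (1 : R[X])
  rwa [Polynomial.map_one] at this

lemma dc_pow {R : Type} [CommRing R] (P : R[X][X]) (m : ℕ) :
    dc (P ^ (m + 1)) = ((m + 1 : ℕ) : R[X][X]) * P ^ m * dc P := by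
  induction m with
  | zero => simp
  | succ m ih =>
    rw [pow_succ, dc_mul, ih]
    push_cast
    ring


lemma two_q {R : Type} [CommRing R] (p : ℕ) [Fact p.Prime] [CharP R p] {q : ℕ} (hq : p = 2 * q + 1) :
    (2 : R) * (q : R) = -1 := by
  have h : ((2 * q + 1 : ℕ) : R) = 0 := by
    rw [← hq]
    exact CharP.cast_eq_zero R p
  push_cast at h
  linear_combination h

/-- Coefficients of derivatives vanish at `p (i + 1) - 1`. -/
lemma coeff_der {R : Type} [CommRing R] (p : ℕ) [Fact p.Prime] [CharP R p] (G : R[X]) (i : ℕ) :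
    (derivative G).coeff (p * (i + 1) - 1) = 0 := by
  have hp : 0 < p := (Fact.out : p.Prime).pos
  have h1 : p * (i + 1) - 1 + 1 = p * (i + 1) := Nat.sub_add_cancel (Nat.mul_pos hp (Nat.succ_pos i))
  rw [coeff_derivative, h1]
  have h2 : ((p * (i + 1) - 1 : ℕ) : R) + 1 = ((p * (i + 1) : ℕ) : R) := by
    rw [← h1]
    push_cast
    rfl
  rw [h2, Nat.cast_mul, CharP.cast_eq_zero, zero_mul, mul_zero]

/-! ## Horizontality -/

/-- The product `∏ (x - a_j)` over `C[X]`. -/
noncomputable def ff {C : Type} [CommRing C] {n : ℕ} (a : Fin n → C) : C[X][X] :=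
  ∏ j, (X - Polynomial.C (Polynomial.C (a j)))

/-- The polynomial `b_j` over `C[X]`. -/
noncomputable def bb {C : Type} [CommRing C] {n : ℕ} (a : Fin n → C) (j : Fin n) : C[X][X] :=
  ∏ m ∈ univ.erase j, (X - Polynomial.C (Polynomial.C (a m)))

lemma bb_eq {C : Type} [CommRing C] {n : ℕ} (a : Fin n → C) (j : Fin n) :
    (bp a j).map Polynomial.C = bb a j := by
  unfold bp bb
  rw [Polynomial.map_prod]
  refine Finset.prod_congr rfl fun m _ => ?_
  rw [Polynomial.map_sub, Polynomial.map_X, Polynomial.map_C]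

lemma ff_eq {C : Type} [CommRing C] {n : ℕ} (a : Fin n → C) :
    (∏ j, (X - Polynomial.C (a j))).map Polynomial.C = ff a := by
  unfold ff
  rw [Polynomial.map_prod]
  refine Finset.prod_congr rfl fun m _ => ?_
  rw [Polynomial.map_sub, Polynomial.map_X, Polynomial.map_C]

lemma ff_bb {C : Type} [CommRing C] {n : ℕ} (a : Fin n → C) (j : Fin n) :
    (X - Polynomial.C (Polynomial.C (a j))) * bb a j = ff a := by
  unfold ff bb
  exact Finset.mul_prod_erase univ (fun m => X - Polynomial.C (Polynomial.C (a m))) (mem_univ j)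

lemma dc_bb {C : Type} [CommRing C] {n : ℕ} (a : Fin n → C) (j : Fin n) : dc (bb a j) = 0 := by
  rw [← bb_eq, dc_map]

lemma dc_ff {C : Type} [CommRing C] {n : ℕ} (a : Fin n → C) : dc (ff a) = 0 := by
  rw [← ff_eq, dc_map]

lemma der_ff {C : Type} [CommRing C] {n : ℕ} (a : Fin n → C) :
    derivative (ff a) = ∑ m, bb a m := by
  unfold ff bb
  rw [derivative_prod_finset]
  refine Finset.sum_congr rfl fun m _ => ?_
  rw [derivative_sub, derivative_X, derivative_C, sub_zero, mul_one]

lemma natDegree_bp {C : Type} [CommRing C] {n : ℕ} (a : Fin n → C) (j : Fin n) :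
    (bp a j).natDegree < n := by
  have hn : 0 < n := j.pos
  unfold bp
  refine lt_of_le_of_lt (natDegree_prod_le _ _) ?_
  refine lt_of_le_of_lt (Finset.sum_le_card_nsmul _ _ 1 fun m _ => natDegree_X_sub_C_le _) ?_
  rw [card_erase_of_mem (mem_univ j), card_univ, Fintype.card_fin, smul_eq_mul, mul_one]
  omega

/-- The entries in the basis `b_j`. -/
lemma entry {C : Type} [CommRing C] (p g n : ℕ) (a : Fin n → C) (i : Fin g) (j : Fin n) :
    (YX p g a * (Em a).map Polynomial.C) i j =
      (bb a j * fmx a ^ ((p - 1) / 2)).coeff (p * ((i : ℕ) + 1) - 1) := by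
  rw [Matrix.mul_apply, ← bb_eq]
  have h1 : (bp a j).map Polynomial.C =
      ∑ l : Fin n, Polynomial.C (Polynomial.C ((bp a j).coeff l)) * X ^ (l : ℕ) := by
    rw [← Finset.sum_range fun l => Polynomial.C (Polynomial.C ((bp a j).coeff l)) * X ^ l]
    conv_lhs => rw [as_sum_range' (bp a j) n (natDegree_bp a j)]
    rw [Polynomial.map_sum]
    refine Finset.sum_congr rfl fun l _ => ?_
    rw [Polynomial.map_monomial, C_mul_X_pow_eq_monomial]
  rw [h1, Finset.sum_mul, finsetSum_coeff]
  refine Finset.sum_congr rfl fun l _ => ?_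
  rw [mul_assoc, coeff_C_mul, mul_comm]
  rfl

theorem hwb : S_HWb := by
  intro C _ p _ _ hp2 g n a i j
  have hp : p.Prime := Fact.out
  obtain ⟨q', hq'⟩ : ∃ q', p = 2 * (q' + 1) + 1 := by
    have h1 := hp.two_le
    have h2 : p % 2 = 1 := hp.mod_two_eq_one_iff_ne_two.mpr hp2
    exact ⟨p / 2 - 1, by omega⟩
  have hq : (p - 1) / 2 = q' + 1 := by omega
  have h2q : (2 : C[X][X]) * ((q' + 1 : ℕ) : C[X][X]) = -1 := two_q p hq'
  simp only [entry, hq]
  have hder : ∀ G : C[X][X], (dc G).coeff (p * ((i : ℕ) + 1) - 1) =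
      derivative (G.coeff (p * ((i : ℕ) + 1) - 1)) := fun G => dc_coeff G _
  rw [← hder, ← finsetSum_coeff]
  -- the identity of polynomials
  set h : C[X][X] := fmx a with hh
  set f : C[X][X] := ff a with hf
  have e1 : h = (X - Polynomial.C X) * f := rfl
  have e2 : dc h = -f := by
    rw [e1, dc_mul, dc_sub, dc_X, dc_C, dc_ff, derivative_X, Polynomial.C_1]
    ring
  have e3 : derivative h = f + (X - Polynomial.C X) * derivative f := by
    rw [e1, derivative_mul, derivative_sub, derivative_X, derivative_C]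
    ring
  have e4 : dc (bb a j * h ^ (q' + 1)) = -(((q' + 1 : ℕ) : C[X][X]) * bb a j * h ^ q' * f) := by
    rw [dc_mul, dc_bb, dc_pow, e2]
    ring
  have e5 : derivative (f * h ^ (q' + 1)) = derivative f * h ^ (q' + 1) +
      f * (((q' + 1 : ℕ) : C[X][X]) * h ^ q' * (f + (X - Polynomial.C X) * derivative f)) := by
    rw [derivative_mul, derivative_pow, e3]
    simp
  have e6 : ∑ m ∈ univ.erase j, bb a m * h ^ (q' + 1) = (derivative f - bb a j) * h ^ (q' + 1) := by
    rw [← Finset.sum_mul, hf, der_ff, ← Finset.add_sum_erase univ _ (mem_univ j)]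
    ring
  have e7 : (X - Polynomial.C (Polynomial.C (a j))) * bb a j = f := ff_bb a j
  have key : 2 * (Polynomial.C (X - Polynomial.C (a j))) * dc (bb a j * h ^ (q' + 1)) =
      ∑ m ∈ univ.erase j, bb a m * h ^ (q' + 1) - 2 * derivative (f * h ^ (q' + 1)) := by
    rw [e4, e5, e6, Polynomial.C_sub]
    have e8 : h ^ (q' + 1) = h ^ q' * ((X - Polynomial.C X) * f) := by rw [pow_succ, ← e1]
    rw [e8]
    linear_combination (h ^ q' * (-(Polynomial.C X - Polynomial.C (Polynomial.C (a j))) * bb a j * f + f * (f + (X - Polynomial.C X) * derivative f))) * h2q + (h ^ q' * f) * e7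
  have key2 := congrArg (fun G : C[X][X] => G.coeff (p * ((i : ℕ) + 1) - 1)) key
  simp only [coeff_sub] at key2
  have e9 : (2 * derivative (f * h ^ (q' + 1))).coeff (p * ((i : ℕ) + 1) - 1) = 0 := by
    rw [show (2 : C[X][X]) = Polynomial.C 2 from (map_ofNat Polynomial.C 2).symm, coeff_C_mul, coeff_der, mul_zero]
  rw [e9, sub_zero] at key2
  rw [← key2, show (2 : C[X][X]) = Polynomial.C 2 from (map_ofNat Polynomial.C 2).symm, ← Polynomial.C_mul, coeff_C_mul]

/-! ## Isotropy -/

lemma geo {S : Type} [CommRing S] (x z : S) (j : ℕ) :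
    (x - z) * ∑ s ∈ antidiagonal j, x ^ s.1 * z ^ s.2 = x ^ (j + 1) - z ^ (j + 1) := by
  induction j with
  | zero => simp
  | succ j ih =>
    rw [Finset.Nat.sum_antidiagonal_succ]
    have e : ∑ s ∈ antidiagonal j, x ^ (s.1 + 1) * z ^ s.2 = x * ∑ s ∈ antidiagonal j, x ^ s.1 * z ^ s.2 := by
      rw [Finset.mul_sum]
      exact Finset.sum_congr rfl fun s _ => by ring
    simp only [e]
    linear_combination x * ih

lemma geo2 {S : Type} [CommRing S] (x z : S) (j : ℕ) :
    (x - z) ^ 2 * ∑ s ∈ antidiagonal j, ((s.1 : S) - (s.2 : S)) * (x ^ s.1 * z ^ s.2) =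
      2 * z ^ (j + 2) - 2 * x ^ (j + 2) + ((j : S) + 2) * (x - z) * (x ^ (j + 1) + z ^ (j + 1)) := by
  induction j with
  | zero => simp; ring
  | succ j ih =>
    rw [Finset.Nat.sum_antidiagonal_succ]
    have e : ∑ s ∈ antidiagonal j, (((s.1 + 1 : ℕ) : S) - (s.2 : S)) * (x ^ (s.1 + 1) * z ^ s.2) =
        x * (∑ s ∈ antidiagonal j, ((s.1 : S) - (s.2 : S)) * (x ^ s.1 * z ^ s.2)) +
          x * ∑ s ∈ antidiagonal j, x ^ s.1 * z ^ s.2 := by
      rw [Finset.mul_sum, Finset.mul_sum, ← Finset.sum_add_distrib]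
      exact Finset.sum_congr rfl fun s _ => by push_cast; ring
    simp only [e]
    push_cast
    linear_combination x * ih + x * (x - z) * geo x z j

/-- Sums over a square, of a function which vanishes beyond the antidiagonal. -/
lemma sum_square {M : Type} [AddCommMonoid M] (n : ℕ) (F : ℕ → ℕ → M) (h : ∀ l m, n ≤ l + m → F l m = 0) :
    ∑ l ∈ range n, ∑ m ∈ range n, F l m = ∑ j ∈ range n, ∑ s ∈ antidiagonal j, F s.1 s.2 := by
  rw [← Finset.sum_product' (f := F)]
  have h1 : ∑ s ∈ range n ×ˢ range n, F s.1 s.2 =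
      ∑ s ∈ (range n ×ˢ range n).filter (fun s => s.1 + s.2 < n), F s.1 s.2 := by
    rw [Finset.sum_filter]
    refine Finset.sum_congr rfl fun s _ => ?_
    split_ifs with h2
    · rfl
    · exact h _ _ (not_lt.mp h2)
  rw [h1, ← Finset.sum_fiberwise_of_maps_to (t := range n) (g := fun s : ℕ × ℕ => s.1 + s.2)]
  · refine Finset.sum_congr rfl fun j hj => Finset.sum_congr ?_ fun _ _ => rfl
    ext s
    simp only [mem_filter, mem_product, mem_range, HasAntidiagonal.mem_antidiagonal] at hj ⊢
    omega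
  · intro s hs
    simp only [mem_filter, mem_product, mem_range] at hs ⊢
    exact hs.2

/-- Twice the polynomial `Q(x, z)`. -/
noncomputable def Q2 {R : Type} [CommRing R] (n : ℕ) (h : R[X]) : R[X][X] :=
  ∑ l ∈ range n, ∑ m ∈ range n, C (C (((l : R) - (m : R)) * h.coeff (l + m + 2))) * (X ^ l * C X ^ m)

lemma Q2_eq {R : Type} [CommRing R] (n : ℕ) (h : R[X]) (hn : h.natDegree ≤ n + 1) :
    (X - C X) ^ 2 * Q2 n h = 2 * C h - 2 * h.map C +
      (X - C X) * ((derivative h).map C + C (derivative h)) := by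
  have hsum : h = ∑ k ∈ range (n + 2), monomial k (h.coeff k) :=
    as_sum_range' h (n + 2) (by omega)
  have hL : ∀ L : R[X] →+ R[X][X], L h = ∑ j ∈ range n, L (monomial (j + 2) (h.coeff (j + 2))) +
      L (monomial 1 (h.coeff 1)) + L (monomial 0 (h.coeff 0)) := by
    intro L
    conv_lhs => rw [hsum]
    rw [map_sum, Finset.sum_range_succ', Finset.sum_range_succ']
  set L : R[X] →+ R[X][X] :=
    { toFun := fun h => 2 * C h - 2 * h.map C + (X - C X) * ((derivative h).map C + C (derivative h))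
      map_zero' := by simp
      map_add' := fun h h' => by
        simp only [derivative_add, Polynomial.map_add, C_add]
        ring } with hLd
  have e0 : L h = 2 * C h - 2 * h.map C + (X - C X) * ((derivative h).map C + C (derivative h)) := rfl
  rw [← e0, hL L]
  have e1 : ∀ c : R, L (monomial 0 c) = 0 := by
    intro c
    show 2 * C (monomial 0 c) - 2 * (monomial 0 c).map C +
      (X - C X) * ((derivative (monomial 0 c)).map C + C (derivative (monomial 0 c))) = 0
    simp
  have e2 : ∀ c : R, L (monomial 1 c) = 0 := by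
    intro c
    show 2 * C (monomial 1 c) - 2 * (monomial 1 c).map C +
      (X - C X) * ((derivative (monomial 1 c)).map C + C (derivative (monomial 1 c))) = 0
    simp only [← C_mul_X_pow_eq_monomial, derivative_C_mul, pow_one, derivative_X, Polynomial.map_mul,
      Polynomial.map_C, Polynomial.map_X, Polynomial.map_one, C_mul, C_1]
    ring
  have e3 : ∀ (j : ℕ) (c : R), L (monomial (j + 2) c) = C (C c) * (2 * (C X) ^ (j + 2) - 2 * X ^ (j + 2) +
      ((j : R[X][X]) + 2) * (X - C X) * (X ^ (j + 1) + C X ^ (j + 1))) := by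
    intro j c
    show 2 * C (monomial (j + 2) c) - 2 * (monomial (j + 2) c).map C +
      (X - C X) * ((derivative (monomial (j + 2) c)).map C + C (derivative (monomial (j + 2) c))) = _
    simp only [← C_mul_X_pow_eq_monomial, derivative_C_mul, derivative_X_pow, Polynomial.map_mul,
      Polynomial.map_C, Polynomial.map_X, Polynomial.map_pow, C_mul, C_pow, Nat.add_succ_sub_one, map_natCast,
      Nat.cast_add, Nat.cast_ofNat, Polynomial.map_add, C_add, Polynomial.map_natCast, Polynomial.map_ofNat,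
      map_ofNat]
    ring
  rw [e1, e2, add_zero, add_zero]
  unfold Q2
  rw [sum_square n (fun l m => C (C (((l : R) - (m : R)) * h.coeff (l + m + 2))) * (X ^ l * C X ^ m)),
    Finset.mul_sum]
  · refine Finset.sum_congr rfl fun j _ => ?_
    rw [e3, ← geo2, mul_left_comm]
    congr 1
    rw [Finset.mul_sum]
    refine Finset.sum_congr rfl fun s hs => ?_
    rw [HasAntidiagonal.mem_antidiagonal] at hs
    rw [hs, C_mul, C_mul, C_sub, C_sub, map_natCast, map_natCast, map_natCast, map_natCast]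
    ring
  · intro l m hlm
    rw [coeff_eq_zero_of_natDegree_lt (show h.natDegree < l + m + 2 by omega)]
    simp

/-- The double coefficient. -/
noncomputable def cc {R : Type} [CommRing R] (A B : ℕ) (G : R[X][X]) : R := (G.coeff A).coeff B

lemma cc_add {R : Type} [CommRing R] (A B : ℕ) (G H : R[X][X]) : cc A B (G + H) = cc A B G + cc A B H := by
  simp [cc]

lemma cc_sub {R : Type} [CommRing R] (A B : ℕ) (G H : R[X][X]) : cc A B (G - H) = cc A B G - cc A B H := by
  simp [cc]

lemma cc_sum {R : Type} [CommRing R] {ι : Type} (A B : ℕ) (s : Finset ι) (G : ι → R[X][X]) :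
    cc A B (∑ i ∈ s, G i) = ∑ i ∈ s, cc A B (G i) := by
  simp [cc, finsetSum_coeff]

lemma cc_swap {R : Type} [CommRing R] (A B : ℕ) (G : R[X][X]) :
    cc A B (Bivariate.swap G) = cc B A G := by
  induction G using Polynomial.induction_on' with
  | add G H hG hH => rw [map_add, cc_add, cc_add, hG, hH]
  | monomial k f =>
    induction f using Polynomial.induction_on' with
    | add f g hf hg => rw [map_add, map_add, cc_add, cc_add, hf, hg]
    | monomial m r =>
      rw [Bivariate.swap_monomial_monomial]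
      unfold cc
      rw [coeff_monomial, coeff_monomial]
      split_ifs with h1 h2 h2 <;> simp [coeff_monomial, h1, h2]

lemma cc_prod {R : Type} [CommRing R] (A B : ℕ) (c : R) (P Q : R[X]) :
    cc A B (C (C c) * (P.map C * C Q)) = P.coeff A * c * Q.coeff B := by
  unfold cc
  rw [coeff_C_mul, coeff_mul_C, coeff_map, coeff_C_mul, coeff_C_mul]
  ring

/-- The recursion on the antidiagonals. -/
lemma descend {R : Type} [CommRing R] (u : ℕ → ℕ → R)
    (h : ∀ i j, (if i = 0 then 0 else u (i - 1) j) = (if j = 0 then 0 else u i (j - 1))) : ∀ j i, u i j = 0 := by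
  intro j
  induction j with
  | zero =>
    intro i
    have := h (i + 1) 0
    simpa using this
  | succ j ih =>
    intro i
    have := h (i + 1) (j + 1)
    simp only [Nat.add_eq_zero_iff, one_ne_zero, and_false, if_false, Nat.add_sub_cancel] at this
    rw [this, ih]

lemma sub_pow_odd {S : Type} [CommRing S] (x z : S) (q' : ℕ) :
    (x - z) ^ (2 * q' + 1) = -(z - x) ^ (2 * q' + 1) := by
  rw [← neg_sub z x, Odd.neg_pow ⟨q', rfl⟩]

lemma iso_gen {R : Type} [CommRing R] (p : ℕ) [Fact p.Prime] [CharP R p] {q' : ℕ}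
    (hq : p = 2 * (q' + 1) + 1) (h : R[X]) (n : ℕ) (hn : h.natDegree ≤ n + 1) (i j : ℕ) :
    cc (p * (i + 1) - 1) (p * (j + 1) - 1) (h.map C ^ (q' + 1) * C h ^ (q' + 1) * Q2 n h) = 0 := by
  have hp : 0 < p := (Fact.out : p.Prime).pos
  set U : R[X][X] := h.map C ^ (q' + 1) * C h ^ (q' + 1) * Q2 n h with hU
  set E : R[X][X] := 2 * derivative ((X - C X) ^ (2 * q' + 2) * h.map C ^ (q' + 2) * C h ^ (q' + 1)) with hE
  have h2q : (2 : R[X][X]) * ((q' + 1 : ℕ) : R[X][X]) = -1 := two_q p hq
  push_cast at h2q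
  have hE1 : E = (X - C X) ^ (2 * q' + 1) * h.map C ^ (q' + 1) * C h ^ (q' + 1) *
      (-(2 * h.map C) + (X - C X) * (derivative h).map C) := by
    rw [hE, derivative_mul, derivative_mul, derivative_pow, derivative_pow, derivative_map, derivative_sub,
      derivative_X, derivative_C, derivative_pow, derivative_C]
    simp only [Nat.add_sub_cancel, Nat.add_succ_sub_one, Nat.cast_add, Nat.cast_mul, Nat.cast_ofNat, mul_zero,
      add_zero, sub_zero, mul_one]
    rw [C_add, C_mul, C_add, map_natCast, map_ofNat]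
    linear_combination (2 * (X - C X) ^ (2 * q' + 1) * h.map C ^ (q' + 2) * C h ^ (q' + 1) +
      (X - C X) ^ (2 * q' + 2) * h.map C ^ (q' + 1) * C h ^ (q' + 1) * (derivative h).map C) * h2q
  have hE2 : Bivariate.swap E = (X - C X) ^ (2 * q' + 1) * h.map C ^ (q' + 1) * C h ^ (q' + 1) *
      (2 * C h + (X - C X) * C (derivative h)) := by
    rw [hE1]
    simp only [map_mul, map_pow, map_sub, map_add, map_neg, map_ofNat, Bivariate.swap_Y,
      Bivariate.swap_C, Bivariate.swap_map_C, Polynomial.map_X]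
    rw [sub_pow_odd (C X : R[X][X]) X q']
    ring
  have hE3 : E + Bivariate.swap E = (X ^ p - C (X ^ p)) * U := by
    rw [C_pow, ← sub_pow_char, hE2, hE1, ← mul_add, hU]
    have h3 := Q2_eq n h hn
    have h4 : (X - C X : R[X][X]) ^ p = (X - C X) ^ (2 * q' + 1) * (X - C X) ^ 2 := by
      rw [← pow_add, hq]
      congr 1
    rw [h4]
    linear_combination (-(X - C X) ^ (2 * q' + 1) * h.map C ^ (q' + 1) * C h ^ (q' + 1)) * h3
  have hE4 : ∀ (A i : ℕ), cc (p * (i + 1) - 1) A E = 0 := by
    intro A i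
    unfold cc
    rw [hE, show (2 : R[X][X]) = C 2 from (map_ofNat C 2).symm, coeff_C_mul, coeff_der, mul_zero, coeff_zero]
  have hrec : ∀ i j : ℕ, cc (p * (i + 1) - 1) (p * (j + 1) - 1) ((X ^ p - C (X ^ p)) * U) = 0 := by
    intro i j
    rw [← hE3, cc_add, cc_swap, hE4, hE4, add_zero]
  refine descend (fun i j => cc (p * (i + 1) - 1) (p * (j + 1) - 1) U) ?_ j i
  intro i j
  have h5 := hrec i j
  rw [sub_mul, cc_sub, sub_eq_zero] at h5
  have h6 : cc (p * (i + 1) - 1) (p * (j + 1) - 1) (X ^ p * U) =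
      if i = 0 then 0 else cc (p * (i - 1 + 1) - 1) (p * (j + 1) - 1) U := by
    unfold cc
    rw [coeff_X_pow_mul']
    rcases i with _ | i'
    · rw [if_neg (by omega), if_pos rfl, coeff_zero]
    · have h8 : p * (i' + 1 + 1) = p * (i' + 1) + p := by ring
      have h9 : 0 < p * (i' + 1) := Nat.mul_pos hp (Nat.succ_pos i')
      rw [if_pos (by omega), if_neg (by omega), Nat.add_sub_cancel]
      congr 2
      omega
  have h7 : cc (p * (i + 1) - 1) (p * (j + 1) - 1) (C (X ^ p) * U) =
      if j = 0 then 0 else cc (p * (i + 1) - 1) (p * (j - 1 + 1) - 1) U := by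
    unfold cc
    rw [coeff_C_mul, coeff_X_pow_mul']
    rcases j with _ | i'
    · rw [if_neg (by omega), if_pos rfl]
    · have h8 : p * (i' + 1 + 1) = p * (i' + 1) + p := by ring
      have h9 : 0 < p * (i' + 1) := Nat.mul_pos hp (Nat.succ_pos i')
      rw [if_pos (by omega), if_neg (by omega), Nat.add_sub_cancel]
      congr 1
      omega
  rw [h6, h7] at h5
  exact h5

lemma natDegree_fmx {C : Type} [CommRing C] {n : ℕ} (a : Fin n → C) : (fmx a).natDegree ≤ n + 1 := by
  unfold fmx
  refine natDegree_mul_le.trans ?_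
  have h1 : (X - Polynomial.C X : C[X][X]).natDegree ≤ 1 := natDegree_X_sub_C_le _
  have h2 : (∏ j, (X - Polynomial.C (Polynomial.C (a j)))).natDegree ≤ n := by
    refine (natDegree_prod_le _ _).trans ?_
    refine (Finset.sum_le_card_nsmul _ _ 1 fun m _ => natDegree_X_sub_C_le _).trans ?_
    simp
  omega

theorem hwiso : S_HWiso := by
  intro C _ p _ _ hp2 g n a i i' _
  have hp : p.Prime := Fact.out
  obtain ⟨q', hq'⟩ : ∃ q', p = 2 * (q' + 1) + 1 := by
    have h1 := hp.two_le
    have h2 : p % 2 = 1 := hp.mod_two_eq_one_iff_ne_two.mpr hp2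
    exact ⟨p / 2 - 1, by omega⟩
  have hq : (p - 1) / 2 = q' + 1 := by omega
  have key := iso_gen p hq' (fmx a) n (natDegree_fmx a) i i'
  have h1 : (fmx a).map Polynomial.C ^ (q' + 1) * Polynomial.C (fmx a) ^ (q' + 1) * Q2 n (fmx a) =
      ∑ l ∈ range n, ∑ m ∈ range n,
        Polynomial.C (Polynomial.C ((((l : ℕ) : C[X]) - ((m : ℕ) : C[X])) * (fmx a).coeff (l + m + 2))) *
          ((X ^ l * fmx a ^ (q' + 1)).map Polynomial.C * Polynomial.C (X ^ m * fmx a ^ (q' + 1))) := by
    unfold Q2
    rw [Finset.mul_sum]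
    refine Finset.sum_congr rfl fun l _ => ?_
    rw [Finset.mul_sum]
    refine Finset.sum_congr rfl fun m _ => ?_
    generalize Polynomial.C (Polynomial.C ((((l : ℕ) : C[X]) - ((m : ℕ) : C[X])) * (fmx a).coeff (l + m + 2))) = c
    rw [Polynomial.map_mul, Polynomial.map_pow, Polynomial.map_pow, Polynomial.map_X, C_mul, C_pow, C_pow]
    ring
  rw [h1, cc_sum] at key
  simp only [cc_sum, cc_prod] at key
  rw [Finset.sum_range] at key
  simp only [Finset.sum_range] at key
  simp only [YX, hq, Matrix.of_apply]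
  exact key

end Pool.Agent.Helper18.BM
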