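import Pool.Agent.Helper62.BM.KStm
import Pool.Agent.Helper18.BM.HW

/-!
# The Hasse-Witt functionals of cyclic covers: horizontality, degrees, independence
-/

set_option autoImplicit false

open Polynomial Matrix Finset

namespace Pool.Agent.Helper18.BM

open Pool.Agent.Helper62.BM

/-! ## Degrees -/

/-- The weight function. -/
noncomputable def Fk {C : Type} [CommRing C] (p q : ℕ) {n : ℕ} (a : Fin n → C) : C[X][X] :=
  ff a ^ q * (X - Polynomial.C X) ^ (p - 1 - q)

lemma yk_eq {C : Type} [CommRing C] (p q : ℕ) {n : ℕ} (a : Fin n → C) (i l : ℕ) :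
    yk p q a i l = (X ^ l * Fk p q a).coeff (p * (i + 1) - 1) := rfl

theorem khwdeg : K_HWdeg := by
  intro C _ p q n a i l
  have h0 : CDeg (ff a) 0 := CDeg.prod _ _ fun i _ => (cdeg_X 0).sub (cdeg_CC _ 0)
  have h2 : CDeg (X - Polynomial.C (X : C[X])) 1 := (cdeg_X 1).sub cdeg_CX
  have h3 : CDeg (X ^ l * Fk p q a) (p - 1 - q) := by
    have := ((cdeg_X (R := C) 0).pow l).mul ((h0.pow q).mul (h2.pow (p - 1 - q)))
    unfold Fk
    simpa using this
  exact h3 _

/-! ## Horizontality -/

/-- The entries in the basis `b_j`. -/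
lemma entryk {C : Type} [CommRing C] (p q d n : ℕ) (a : Fin n → C) (i : Fin d) (j : Fin n) :
    (YK p q d a * (Em a).map Polynomial.C) i j =
      (bb a j * Fk p q a).coeff (p * ((i : ℕ) + 1) - 1) := by
  rw [Matrix.mul_apply, ← bb_eq]
  have h1 : (bp a j).map Polynomial.C =
      ∑ l : Fin n, Polynomial.C (Polynomial.C ((bp a j).coeff l)) * X ^ (l : ℕ) := by
    rw [← Finset.sum_range fun l => Polynomial.C (Polynomial.C ((bp a j).coeff l)) * X ^ l]
    conv_lhs => rw [as_sum_range' (bp a j) n (natDegree_bp a j)]
    rw [Polynomial.map_sum]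
    refine Finset.sum_congr rfl fun l _ => ?_
    rw [Polynomial.map_monomial, C_mul_X_pow_eq_monomial]
  rw [h1, Finset.sum_mul, finsetSum_coeff]
  refine Finset.sum_congr rfl fun l _ => ?_
  rw [mul_assoc, coeff_C_mul, mul_comm]
  rfl

theorem khwb : K_HWb := by
  intro C _ p _ _ q hq d n a i j
  have hp : p.Prime := Fact.out
  simp only [entryk]
  have hder : ∀ G : C[X][X], (dc G).coeff (p * ((i : ℕ) + 1) - 1) =
      derivative (G.coeff (p * ((i : ℕ) + 1) - 1)) := fun G => dc_coeff G _
  rw [← hder, ← finsetSum_coeff]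
  unfold Fk
  set f : C[X][X] := ff a with hf
  set z : C[X][X] := X - Polynomial.C X with hz
  have hfz : dc z = -1 := by
    rw [hz, dc_sub, dc_X, dc_C, derivative_X, Polynomial.C_1]
    ring
  have hfc : ∀ m, dc (f ^ m) = 0 := by
    intro m
    cases m with
    | zero => rw [pow_zero, dc_one]
    | succ m => rw [dc_pow, dc_ff, mul_zero]
  have e6 : ∀ F : C[X][X], ∑ m ∈ univ.erase j, bb a m * F = (derivative f - bb a j) * F := by
    intro F
    rw [← Finset.sum_mul, hf, der_ff, ← Finset.add_sum_erase univ _ (mem_univ j)]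
    ring
  have e7 : (X - Polynomial.C (Polynomial.C (a j))) * bb a j = f := ff_bb a j
  rw [e6]
  have hC : ((q : C[X]) + 1) * ((derivative f - bb a j) * (f ^ q * z ^ (p - 1 - q))).coeff
      (p * ((i : ℕ) + 1) - 1) = ((((q : C[X][X]) + 1)) *
        ((derivative f - bb a j) * (f ^ q * z ^ (p - 1 - q)))).coeff (p * ((i : ℕ) + 1) - 1) := by
    have : ((q : C[X][X]) + 1) = Polynomial.C ((q : C[X]) + 1) := by simp
    rw [this, coeff_C_mul]
  rw [hC]
  have hL : (X - Polynomial.C (a j)) * (dc (bb a j * (f ^ q * z ^ (p - 1 - q)))).coeff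
      (p * ((i : ℕ) + 1) - 1) = (Polynomial.C (X - Polynomial.C (a j)) *
        dc (bb a j * (f ^ q * z ^ (p - 1 - q)))).coeff (p * ((i : ℕ) + 1) - 1) := by
    rw [coeff_C_mul]
  rw [hL]
  obtain ⟨s, hs⟩ | hs : (∃ s, p - 1 - q = s + 1) ∨ p - 1 - q = 0 := by
    rcases Nat.eq_zero_or_pos (p - 1 - q) with h | h
    · exact Or.inr h
    · exact Or.inl ⟨p - 1 - q - 1, by omega⟩
  · rw [hs]
    have hchar : (s : C[X][X]) + 1 = -((q : C[X][X]) + 1) := by
      have h1 : ((s + 1 + (q + 1) : ℕ) : C[X][X]) = 0 := by
        have : s + 1 + (q + 1) = p := by omega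
        rw [this]
        exact CharP.cast_eq_zero _ p
      push_cast at h1
      linear_combination h1
    have e4 : dc (bb a j * (f ^ q * z ^ (s + 1))) =
        ((q : C[X][X]) + 1) * (bb a j * f ^ q * z ^ s) := by
      rw [dc_mul, dc_bb, dc_mul, hfc, dc_pow, hfz]
      push_cast
      rw [hchar]
      ring
    have e5 : derivative (f ^ (q + 1) * z ^ (s + 1)) =
        ((q : C[X][X]) + 1) * (derivative f * (f ^ q * z ^ (s + 1)) - f ^ (q + 1) * z ^ s) := by
      rw [derivative_mul, derivative_pow, derivative_pow]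
      have h1 : derivative z = 1 := by
        rw [hz, derivative_sub, derivative_X, derivative_C, sub_zero]
      rw [h1]
      simp only [Nat.add_sub_cancel, map_natCast]
      push_cast
      rw [hchar]
      ring
    have key : Polynomial.C (X - Polynomial.C (a j)) * dc (bb a j * (f ^ q * z ^ (s + 1))) =
        ((q : C[X][X]) + 1) * ((derivative f - bb a j) * (f ^ q * z ^ (s + 1))) -
          derivative (f ^ (q + 1) * z ^ (s + 1)) := by
      rw [e4, e5, Polynomial.C_sub]
      have e8 : (Polynomial.C X : C[X][X]) = X - z := by rw [hz]; ring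
      rw [e8]
      linear_combination (((q : C[X][X]) + 1) * (f ^ q * z ^ s)) * e7
    rw [key, coeff_sub, coeff_der, sub_zero]
  · have hq1 : ((q : C[X][X]) + 1) = 0 := by
      have h1 : ((q + 1 : ℕ) : C[X][X]) = 0 := by
        have : q + 1 = p := by have := hp.two_le; omega
        rw [this]
        exact CharP.cast_eq_zero _ p
      push_cast at h1
      exact h1
    rw [hs, hq1, pow_zero, mul_one, dc_mul, dc_bb, hfc]
    simp

/-! ## Independence -/

section rank

variable {K : Type} [Field K] (p : ℕ) [Fact p.Prime] [CharP K p]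

omit [Fact p.Prime] in
lemma mult (α : K) {s : ℕ} (hs : 1 ≤ s) {E1 A : K[X]} (hE : E1.eval α ≠ 0)
    (h : derivative ((X - C α) ^ s * E1 * A) = 0) : ∀ k, s + k ≤ p → (X - C α) ^ k ∣ A := by
  intro k
  induction k with
  | zero => intro _; simp
  | succ k ih =>
    intro hk
    obtain ⟨B, hB⟩ := ih (by omega)
    obtain ⟨u, hu⟩ : ∃ u, s + k = u + 1 := ⟨s + k - 1, by omega⟩
    have h1 : (X - C α) ^ s * E1 * A = (X - C α) ^ (u + 1) * (E1 * B) := by
      rw [hB, ← hu, pow_add]
      ring
    rw [h1, derivative_mul, derivative_pow] at h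
    have h2 : (X - C α) ^ u * (C ((u : K) + 1) * (E1 * B) +
        (X - C α) * derivative (E1 * B)) = 0 := by
      rw [← h]
      simp only [derivative_sub, derivative_X, derivative_C, Nat.add_sub_cancel]
      push_cast
      ring
    have hX : (X - C α) ^ u ≠ 0 := pow_ne_zero _ (X_sub_C_ne_zero α)
    have h3 := (mul_eq_zero.mp h2).resolve_left hX
    have h4 := congrArg (Polynomial.eval α) h3
    simp only [eval_add, eval_mul, eval_C, eval_sub, eval_X, sub_self, zero_mul, add_zero,
      eval_zero] at h4
    have h5 : (u : K) + 1 ≠ 0 := by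
      have : ((u + 1 : ℕ) : K) ≠ 0 := by
        rw [Ne, CharP.cast_eq_zero_iff K p]
        intro hdvd
        have := Nat.le_of_dvd (Nat.succ_pos u) hdvd
        omega
      exact_mod_cast this
    have h6 : B.eval α = 0 := by
      rcases mul_eq_zero.mp h4 with h | h
      · exact absurd h h5
      · exact (mul_eq_zero.mp h).resolve_left hE
    obtain ⟨B', hB'⟩ := dvd_iff_isRoot.mpr h6
    exact ⟨B', by rw [hB, hB']; ring⟩

omit [Fact p.Prime] [CharP K p] in
lemma split_poly (G : K[X]) (N M : ℕ) (hMN : M ≤ N) (hdeg : ∀ k, N + M ≤ k → G.coeff k = 0)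
    (h : ∀ k, M ≤ k → k < N → G.coeff k = 0) : ∃ A R : K[X], G = X ^ N * A + R ∧
      (∀ k, M ≤ k → A.coeff k = 0) ∧ (∀ k, M ≤ k → R.coeff k = 0) := by
  refine ⟨∑ k ∈ range M, monomial k (G.coeff (k + N)), ∑ k ∈ range M, monomial k (G.coeff k),
    ?_, ?_, ?_⟩
  · ext k
    rw [coeff_add, coeff_X_pow_mul', finsetSum_coeff, finsetSum_coeff]
    simp only [coeff_monomial]
    rw [Finset.sum_ite_eq', Finset.sum_ite_eq']
    simp only [Finset.mem_range]
    by_cases h1 : k < M
    · rw [if_neg (by omega), if_pos h1, zero_add]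
    · by_cases h2 : k < N
      · rw [if_neg (by omega), if_neg h1, add_zero]
        exact h k (by omega) h2
      · rw [if_pos (by omega), if_neg h1, add_zero]
        split_ifs with h3
        · congr 1
          omega
        · exact hdeg k (by omega)
  · intro k hk
    rw [finsetSum_coeff]
    simp only [coeff_monomial]
    rw [Finset.sum_ite_eq', if_neg (by simpa using hk)]
  · intro k hk
    rw [finsetSum_coeff]
    simp only [coeff_monomial]
    rw [Finset.sum_ite_eq', if_neg (by simpa using hk)]

omit [Fact p.Prime] in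
/-- the coefficient at a multiple of `p`, minus one, of a derivative -/
lemma coeff_der' (G : K[X]) {N : ℕ} (hN : p ∣ N) (hN0 : 0 < N) :
    (derivative G).coeff (N - 1) = 0 := by
  rw [coeff_derivative, Nat.sub_add_cancel hN0]
  have h2 : ((N - 1 : ℕ) : K) + 1 = (N : K) := by
    have : ((N - 1 + 1 : ℕ) : K) = (N : K) := by rw [Nat.sub_add_cancel hN0]
    rw [← this]
    push_cast
    rfl
  rw [h2, (CharP.cast_eq_zero_iff K p N).mpr hN, mul_zero]

theorem rank_core {n q D0 : ℕ} (hq : q < p) (hn : 1 ≤ n) (b : Fin n → K) (t : K)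
    (hb : Function.Injective b) (ht : ∀ j, b j ≠ t) (hM : (n - 1) * q + n ≤ p * D0)
    (hnd : ∀ l, n ≤ l → l + (n - 1) * q < p * D0 → ¬ p ∣ l + (n - 1) * q) (P : K[X])
    (hP' : derivative P = 0) (hPd : P.natDegree + p ≤ p * D0)
    (hΛ : ∀ l < n, (X ^ l * (((∏ j, (X - C (b j))) ^ q * (X - C t) ^ (p - 1 - q)) * P)).coeff
      (p * D0 - 1) = 0) : P = 0 := by
  have hp : p.Prime := Fact.out
  have hp0 : 0 < p := hp.pos
  set f : K[X] := ∏ j, (X - C (b j)) with hf
  set z : K[X] := X - C t with hz
  set N := p * D0 with hN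
  set M := (n - 1) * q with hMdef
  have hpN : p ∣ N := dvd_mul_right _ _
  have hN0 : 0 < N := by omega
  have hnq : n * q = M + q := by
    rw [hMdef]
    obtain ⟨n', rfl⟩ : ∃ n', n = n' + 1 := ⟨n - 1, by omega⟩
    rw [Nat.add_sub_cancel]
    ring
  have hfm : f.Monic := monic_prod_of_monic _ _ fun j _ => monic_X_sub_C _
  have hzm : z.Monic := monic_X_sub_C _
  have hfd : f.natDegree = n := by
    rw [hf, natDegree_prod_of_monic _ _ fun j _ => monic_X_sub_C _]
    simp
  have hzd : z.natDegree = 1 := natDegree_X_sub_C t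
  set F : K[X] := f ^ q * z ^ (p - 1 - q) with hF
  have hFm : F.Monic := (hfm.pow q).mul (hzm.pow _)
  have hFd : F.natDegree = M + (p - 1) := by
    rw [hF, (hfm.pow q).natDegree_mul (hzm.pow _), hfm.natDegree_pow, hzm.natDegree_pow, hfd, hzd]
    rw [mul_comm q n, hnq]
    omega
  set G : K[X] := F * P with hG
  -- step 2
  have step2 : ∀ l, l + M < N → (X ^ l * G).coeff (N - 1) = 0 := by
    intro l
    induction l using Nat.strong_induction_on with
    | _ l ih =>
      intro hl
      by_cases hln : l < n
      · exact hΛ l hln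
      push Not at hln
      obtain ⟨j, rfl⟩ : ∃ j, l = j + n := ⟨l - n, by omega⟩
      set W0 : K[X] := X ^ j * f ^ (q + 1) * z ^ (p - 1 - q + 1) with hW0
      have hW0m : W0.Monic := (((monic_X_pow j).mul (hfm.pow _))).mul (hzm.pow _)
      have hW0d : W0.natDegree = j + n + F.natDegree + 1 := by
        rw [hW0, ((monic_X_pow j).mul (hfm.pow _)).natDegree_mul (hzm.pow _),
          (monic_X_pow j).natDegree_mul (hfm.pow _), hfm.natDegree_pow, hzm.natDegree_pow, hfd,
          hzd, natDegree_X_pow, hFd, add_mul, mul_comm q n, hnq]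
        omega
      obtain ⟨u, hu⟩ : F ∣ derivative W0 := by
        refine ⟨derivative (X ^ j) * f * z + X ^ j * (C ((q : K) + 1) * derivative f) * z +
          X ^ j * f * C (((p - 1 - q : ℕ) : K) + 1), ?_⟩
        have hz' : derivative z = 1 := by
          rw [hz, derivative_sub, derivative_X, derivative_C, sub_zero]
        rw [hW0, derivative_mul, derivative_mul, derivative_pow (p := f), derivative_pow (p := z), hz']
        simp only [Nat.add_sub_cancel]
        push_cast
        rw [hF]
        ring
      have hFne : F ≠ 0 := hFm.ne_zero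
      have hlead : u.coeff (j + n) = ((W0.natDegree : ℕ) : K) ∧ u.natDegree ≤ j + n := by
        have hdd : (derivative W0).natDegree ≤ j + n + F.natDegree := by
          refine (natDegree_derivative_le W0).trans ?_
          rw [hW0d]
          omega
        have hud : u.natDegree ≤ j + n := by
          by_cases hu0 : u = 0
          · rw [hu0]
            simp
          · rw [hu, natDegree_mul hFne hu0] at hdd
            omega
        refine ⟨?_, hud⟩
        have h1 := coeff_mul_add_eq_of_natDegree_le (le_refl F.natDegree) hud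
        rw [← hu, hFm.coeff_natDegree, one_mul, coeff_derivative] at h1
        rw [← h1]
        have h2 : F.natDegree + (j + n) + 1 = W0.natDegree := by
          rw [hW0d]
          omega
        rw [h2, hW0m.coeff_natDegree, one_mul, ← h2]
        push_cast
        rfl
      have hne : u.coeff (j + n) ≠ 0 := by
        rw [hlead.1, hW0d, hFd]
        have h1 : j + n + (M + (p - 1)) + 1 = (j + n + M) + p := by omega
        rw [h1, Nat.cast_add, CharP.cast_eq_zero K p, add_zero, Ne, CharP.cast_eq_zero_iff K p]
        exact hnd (j + n) hln hl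
      have hsum : u * G = ∑ k ∈ range (j + n + 1), C (u.coeff k) * (X ^ k * G) := by
        conv_lhs => rw [as_sum_range' u (j + n + 1) (by omega)]
        rw [Finset.sum_mul]
        refine Finset.sum_congr rfl fun k _ => ?_
        rw [← C_mul_X_pow_eq_monomial]
        ring
      have hWder : derivative (W0 * P) = u * G := by
        rw [derivative_mul, hP', mul_zero, add_zero, hu, hG]
        ring
      have h0 : (u * G).coeff (N - 1) = 0 := by
        rw [← hWder]
        exact coeff_der' p _ hpN hN0
      rw [hsum, finsetSum_coeff, Finset.sum_range_succ, Finset.sum_eq_zero, zero_add,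
        coeff_C_mul] at h0
      · exact (mul_eq_zero.mp h0).resolve_left hne
      · intro k hk
        rw [Finset.mem_range] at hk
        rw [coeff_C_mul, ih k hk (by omega), mul_zero]
  -- step 3
  have hGc : ∀ k, M ≤ k → k < N → G.coeff k = 0 := by
    intro k hk hk'
    have h1 := step2 (N - 1 - k) (by omega)
    rw [coeff_X_pow_mul', if_pos (by omega)] at h1
    rw [← h1]
    congr 1
    omega
  have hGd : ∀ k, N + M ≤ k → G.coeff k = 0 := by
    intro k hk
    apply coeff_eq_zero_of_natDegree_lt
    have : G.natDegree ≤ F.natDegree + P.natDegree := natDegree_mul_le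
    omega
  obtain ⟨A, R, hGAR, hA, hR⟩ := split_poly G N M (by omega) hGd hGc
  -- step 4
  obtain ⟨s, hs⟩ : ∃ s, p - q = s + 1 := ⟨p - q - 1, by omega⟩
  set E : K[X] := f ^ (p - q) * z ^ (q + 1) with hE
  have hEm : E.Monic := (hfm.pow _).mul (hzm.pow _)
  have hEd : E.natDegree + M = n * p + 1 := by
    rw [hE, (hfm.pow _).natDegree_mul (hzm.pow _), hfm.natDegree_pow, hzm.natDegree_pow, hfd, hzd]
    have h1 : (p - q) * n + n * q = n * p := by
      rw [mul_comm n q, ← add_mul, Nat.sub_add_cancel hq.le, mul_comm]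
    omega
  have hpow : ∀ g : K[X], derivative (g ^ p) = 0 := by
    intro g
    rw [derivative_pow, CharP.cast_eq_zero K p]
    simp
  have hXN : derivative (X ^ N : K[X]) = 0 := by
    rw [derivative_X_pow, (CharP.cast_eq_zero_iff K p N).mpr hpN]
    simp
  have hEG : E * G = f ^ p * z ^ p * P := by
    rw [hE, hG, hF]
    have h1 : f ^ p = f ^ (p - q) * f ^ q := by rw [← pow_add, Nat.sub_add_cancel hq.le]
    have h2 : z ^ p = z ^ (q + 1) * z ^ (p - 1 - q) := by
      rw [← pow_add]
      congr 1
      omega
    rw [h1, h2]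
    ring
  have hEG' : derivative (E * G) = 0 := by
    rw [hEG, derivative_mul, derivative_mul, hpow, hpow, hP']
    simp
  have hsplit : X ^ N * derivative (E * A) + derivative (E * R) = 0 := by
    rw [← hEG', hGAR]
    have h1 : E * (X ^ N * A + R) = X ^ N * (E * A) + E * R := by ring
    rw [h1, derivative_add, derivative_mul (f := X ^ N), hXN]
    ring
  have hERc : ∀ k, n * p ≤ k → (derivative (E * R)).coeff k = 0 := by
    intro k hk
    rw [coeff_derivative, coeff_eq_zero_of_natDegree_lt, zero_mul]
    by_cases hR0 : R = 0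
    · rw [hR0, mul_zero, natDegree_zero]
      omega
    · have h1 : R.natDegree < M := by
        by_contra hcon
        push Not at hcon
        exact hR0 (leadingCoeff_eq_zero.mp (hR _ hcon))
      have h2 : (E * R).natDegree ≤ E.natDegree + R.natDegree := natDegree_mul_le
      omega
  have hEA : derivative (E * A) = 0 := by
    by_contra hne
    set k := (derivative (E * A)).natDegree with hk
    have h1 : k + N < n * p := by
      by_contra hcon
      push Not at hcon
      have h2 := hERc (k + N) hcon
      have h3 := congrArg (fun Q : K[X] => Q.coeff (k + N)) hsplit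
      simp only [coeff_add, coeff_zero] at h3
      rw [h2, add_zero, coeff_X_pow_mul] at h3
      exact hne (leadingCoeff_eq_zero.mp h3)
    have h2 : f ^ s * z ^ q ∣ derivative (E * A) := by
      refine ⟨C ((s : K) + 1) * derivative f * z * A + f * C ((q : K) + 1) * A +
        f * z * derivative A, ?_⟩
      have hz' : derivative z = 1 := by
        rw [hz, derivative_sub, derivative_X, derivative_C, sub_zero]
      rw [hE, hs, derivative_mul, derivative_mul, derivative_pow (p := f), derivative_pow (p := z), hz']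
      simp only [Nat.add_sub_cancel]
      push_cast
      ring
    have h3 := natDegree_le_of_dvd h2 hne
    rw [(hfm.pow _).natDegree_mul (hzm.pow _), hfm.natDegree_pow, hzm.natDegree_pow, hfd, hzd] at h3
    have h4 : s * n + n + n * q = n * p := by
      have : p = s + 1 + q := by omega
      rw [this]
      ring
    omega
  -- step 5
  have hA0 : A = 0 := by
    by_contra hA0
    have hroot : ∀ j, (X - C (b j)) ^ q ∣ A := by
      intro j
      refine mult p (b j) (s := p - q) (E1 := (∏ i ∈ univ.erase j, (X - C (b i))) ^ (p - q) *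
        z ^ (q + 1)) (by omega) ?_ ?_ q (by omega)
      · rw [eval_mul, eval_pow, eval_pow, eval_prod]
        refine mul_ne_zero (pow_ne_zero _ (Finset.prod_ne_zero_iff.mpr fun i hi => ?_))
          (pow_ne_zero _ ?_)
        · rw [eval_sub, eval_X, eval_C, sub_ne_zero]
          exact fun h => (Finset.mem_erase.mp hi).1 (hb h).symm
        · rw [hz, eval_sub, eval_X, eval_C, sub_ne_zero]
          exact ht j
      · rw [← hEA]
        congr 1
        rw [hE, hf, ← Finset.mul_prod_erase univ (fun i => X - C (b i)) (mem_univ j), mul_pow]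
        ring
    have hroot' : z ^ (p - 1 - q) ∣ A := by
      refine mult p t (s := q + 1) (E1 := f ^ (p - q)) (by omega) ?_ ?_ (p - 1 - q) (by omega)
      · rw [eval_pow, hf, eval_prod]
        refine pow_ne_zero _ (Finset.prod_ne_zero_iff.mpr fun i _ => ?_)
        rw [eval_sub, eval_X, eval_C, sub_ne_zero]
        exact (ht i).symm
      · rw [← hEA]
        congr 1
        rw [hE, hz]
        ring
    have hcop : ∀ x y : K, x ≠ y → IsCoprime (X - C x) (X - C y) := fun x y hxy =>
      isCoprime_X_sub_C_of_isUnit_sub (sub_ne_zero.mpr hxy).isUnit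
    have hfq : f ^ q ∣ A := by
      rw [hf, ← Finset.prod_pow]
      refine Finset.prod_dvd_of_coprime ?_ fun j _ => hroot j
      intro i _ j _ hij
      exact (hcop _ _ fun h => hij (hb h)).pow
    have hFA : F ∣ A := by
      rw [hF]
      refine IsCoprime.mul_dvd ?_ hfq hroot'
      refine IsCoprime.pow ?_
      rw [hf]
      exact IsCoprime.prod_left fun j _ => hcop _ _ (ht j)
    have h1 := natDegree_le_of_dvd hFA hA0
    exact hA0 (leadingCoeff_eq_zero.mp (hA _ (by omega)))
  -- step 6
  by_contra hP0
  have hG0 : G ≠ 0 := mul_ne_zero hFm.ne_zero hP0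
  have h1 : G.natDegree = F.natDegree + P.natDegree := natDegree_mul hFm.ne_zero hP0
  rw [hA0, mul_zero, zero_add] at hGAR
  have h2 := hR G.natDegree (by omega)
  rw [← hGAR] at h2
  exact hG0 (leadingCoeff_eq_zero.mp h2)

end rank

theorem khwrank : K_HWrank := by
  intro n m r hn hr hrm hnd
  refine ⟨m * n + 1, ?_⟩
  intro C _ p _ _ hNp hmp a ha
  have hp : p.Prime := Fact.out
  have hp0 : 0 < p := hp.pos
  obtain ⟨w, hw⟩ := hmp
  have hm0 : 0 < m := by omega
  have hwdiv : (p - 1) / m = w := by
    rw [hw]
    exact Nat.mul_div_cancel_left w hm0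
  rw [hwdiv]
  set q := r * w with hq
  generalize hD0 : dK n m r = D0
  intro c hc
  set e := (n - 1) * r with he
  have hD0e : D0 = e / m + 1 := hD0.symm
  have hdiv : m * (e / m) + e % m = e := Nat.div_add_mod e m
  have hρ0 : 0 < e % m := by
    rcases Nat.eq_zero_or_pos (e % m) with h | h
    · exact absurd (Nat.dvd_of_mod_eq_zero h) hnd
    · exact h
  have hρm : e % m < m := Nat.mod_lt _ hm0
  set ρ := e % m with hρ
  set u := e / m with hu
  have hwn : n ≤ w := by
    by_contra hcon
    push Not at hcon
    have : m * w ≤ m * n := Nat.mul_le_mul_left m hcon.le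
    omega
  have hMe : (n - 1) * q = u * (p - 1) + ρ * w := by
    calc (n - 1) * q = e * w := by rw [hq, he]; ring
      _ = (m * u + ρ) * w := by rw [hdiv]
      _ = u * (m * w) + ρ * w := by ring
      _ = _ := by rw [← hw]
  have hun : u < n := by
    have h1 : m * u ≤ (n - 1) * r := by omega
    have h2 : (n - 1) * r < (n - 1) * m := Nat.mul_lt_mul_of_pos_left hrm (by omega)
    have h3 : m * u < m * (n - 1) := by
      calc m * u ≤ (n - 1) * r := h1
        _ < (n - 1) * m := h2
        _ = m * (n - 1) := mul_comm _ _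
    have h4 := Nat.lt_of_mul_lt_mul_left h3
    omega
  have hup : u * (p - 1) + u = u * p := by
    obtain ⟨p', hp'⟩ : ∃ p', p = p' + 1 := ⟨p - 1, by omega⟩
    rw [hp', Nat.add_sub_cancel]
    ring
  have hpD : p * D0 = u * p + p := by
    rw [hD0e]
    ring
  have hρw : ρ * w + w ≤ m * w := by
    calc ρ * w + w = (ρ + 1) * w := by ring
      _ ≤ m * w := Nat.mul_le_mul_right w hρm
  have hqp : q < p := by
    have h1 : r * w ≤ m * w := Nat.mul_le_mul_right w hrm.le
    omega
  set b : Fin n → KX C := fun j => ι C (Polynomial.C (a j)) with hb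
  set t : KX C := ι C X with ht
  have hιinj : Function.Injective (ι C) := IsFractionRing.injective C[X] (KX C)
  have hFmap : (Fk p q a).map (ι C) =
      (∏ j, (X - Polynomial.C (b j))) ^ q * (X - Polynomial.C t) ^ (p - 1 - q) := by
    unfold Fk ff
    rw [Polynomial.map_mul, Polynomial.map_pow, Polynomial.map_pow, Polynomial.map_prod]
    simp only [Polynomial.map_sub, Polynomial.map_X, Polynomial.map_C]
    rfl
  set P : (KX C)[X] := ∑ i : Fin D0, Polynomial.C (c i) * X ^ (p * (D0 - ((i : ℕ) + 1))) with hP
  have hP0 : P = 0 := by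
    refine rank_core p (n := n) (q := q) (D0 := D0) hqp (by omega) b t ?_ ?_ ?_ ?_ P ?_ ?_ ?_
    · intro i j hij
      exact ha (Polynomial.C_injective (hιinj hij))
    · intro j hj
      have h1 : Polynomial.C (a j) = X := hιinj hj
      have h2 := congrArg Polynomial.natDegree h1
      rw [natDegree_C, natDegree_X] at h2
      exact absurd h2 (by norm_num)
    · omega
    · intro l hl hl' hdvd
      obtain ⟨v, hv⟩ := hdvd
      have h1 : u * p < l + (n - 1) * q := by omega
      have h2 : l + (n - 1) * q < (u + 1) * p := by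
        rw [add_mul, one_mul]
        omega
      rw [hv, mul_comm p v] at h1 h2
      have h3 := Nat.lt_of_mul_lt_mul_right h1
      have h4 := Nat.lt_of_mul_lt_mul_right h2
      omega
    · rw [hP, derivative_sum]
      refine Finset.sum_eq_zero fun i _ => ?_
      rw [derivative_C_mul, derivative_X_pow, Nat.cast_mul, CharP.cast_eq_zero (KX C) p]
      simp
    · have h1 : P.natDegree ≤ p * u := by
        rw [hP]
        refine natDegree_sum_le_of_forall_le _ _ fun i _ => ?_
        refine (natDegree_C_mul_X_pow_le _ _).trans (Nat.mul_le_mul_left p ?_)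
        omega
      rw [hpD, mul_comm u p]
      omega
    · intro l hl
      rw [← hFmap]
      have hcl : ∑ i : Fin D0, c i * ι C (yk p q a i l) = 0 := by
        have := congrFun hc ⟨l, hl⟩
        exact this
      rw [hP, Finset.mul_sum, Finset.mul_sum, finsetSum_coeff, ← hcl]
      refine Finset.sum_congr rfl fun i _ => ?_
      have h1 : X ^ l * ((Fk p q a).map (ι C) * (Polynomial.C (c i) *
          X ^ (p * (D0 - ((i : ℕ) + 1))))) = Polynomial.C (c i) *
          (((X ^ l * Fk p q a).map (ι C)) * X ^ (p * (D0 - ((i : ℕ) + 1)))) := by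
        rw [Polynomial.map_mul, Polynomial.map_pow, Polynomial.map_X]
        ring
      have hi := i.2
      have h2 : p * D0 = p * (D0 - ((i : ℕ) + 1)) + p * ((i : ℕ) + 1) := by
        rw [← mul_add]
        congr 1
        omega
      have h3 : 0 < p * ((i : ℕ) + 1) := Nat.mul_pos hp0 (Nat.succ_pos _)
      rw [h1, coeff_C_mul, coeff_mul_X_pow', if_pos (by omega), coeff_map, yk_eq]
      congr 3
      omega
  funext i
  have h1 := congrArg (fun Q : (KX C)[X] => Q.coeff (p * (D0 - ((i : ℕ) + 1)))) hP0
  simp only [hP, finsetSum_coeff, coeff_C_mul, coeff_X_pow, coeff_zero] at h1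
  rw [Finset.sum_eq_single i] at h1
  · rw [if_pos rfl, mul_one] at h1
    exact h1
  · intro j _ hji
    rw [if_neg, mul_zero]
    intro h
    have h2 := Nat.eq_of_mul_eq_mul_left hp0 h
    have hi := i.2
    have hj := j.2
    apply hji
    apply Fin.ext
    omega
  · intro h
    exact absurd (mem_univ i) h

end Pool.Agent.Helper18.BM
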